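import Pool.Agent.H318.BR.Final

/-!
# MP_24fec0_al (helper318 and helpers): the Boone-Higman conjecture, oligomorphic form

Let `H` be a group with finitely many generators and an arbitrary set of relators. The word problem
of `H` is solvable if and only if `H` embeds in a finitely presented simple group, and if and only
if `H` embeds in a finitely presented simple group `G` which is oligomorphic with finitely generated
stabilizers of finite sets.

The group `G` is the Steinberg group `SU R J` with ten indices, isomorphic to `GL(10, R)`, where
`R = A ⊗ Aᵐᵒᵖ`, `A = R₁ ⊗ L(1,2)`, is obtained from a finitely presented central simple algebra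
`R₁` over the field with two elements, whose group of units contains `H`, and from the Leavitt
algebra `L(1,2)`. It acts on the vectors `A ^ 10`.
-/

set_option autoImplicit false

namespace Pool.Agent.Results.MP_24fec0_al.BooneHigman

/-- `H` embeds in a finitely presented simple group. -/
def EmbedsSimple (H : Type) [Group H] : Prop :=
  ∃ (G : Type) (_ : Group G) (φ : H →* G),
    Group.IsFinitelyPresented G ∧ IsSimpleGroup G ∧ Function.Injective φ

/-- `H` embeds in a finitely presented simple group `G` which acts faithfully on an infinite set
`X`, with finitely many orbits on `X ^ k` for every `k` and with finitely generated pointwise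
stabilizers of all finite subsets of `X`. -/
def EmbedsSimpleOligomorphic (H : Type) [Group H] : Prop :=
  ∃ (G : Type) (_ : Group G) (φ : H →* G) (X : Type) (_ : Infinite X) (ρ : G →* Equiv.Perm X),
    Group.IsFinitelyPresented G ∧ IsSimpleGroup G ∧ Function.Injective φ ∧ Function.Injective ρ ∧
    (∀ k : ℕ, (Set.range (fun x : Fin k → X =>
      {y : Fin k → X | ∃ g : G, y = fun i => ρ g (x i)})).Finite) ∧
    ∀ F : Finset X, ((⨅ a ∈ F, MulAction.stabilizer (Equiv.Perm X) a).comap ρ).FG

/-- Let `H` be the group with generators `x_1, …, x_n` and an arbitrary set `R` of relators. The
following are equivalent: the word problem of `H` is solvable; `H` embeds in a finitely presented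
simple group; `H` embeds in a finitely presented simple group which is oligomorphic with finitely
generated stabilizers of finite sets. -/
theorem result {n : ℕ} (R : Set (FreeGroup (Fin n))) : List.TFAE [
    ComputablePred (fun w : List (Fin n × Bool) =>
      PresentedGroup.mk R (FreeGroup.mk w) = 1),
    EmbedsSimple (PresentedGroup R),
    EmbedsSimpleOligomorphic (PresentedGroup R)] := by
  tfae_have 1 → 3 := Pool.Agent.H318.BR.main R
  tfae_have 3 → 2 := Pool.Agent.H318.BR.simple_of_oligomorphic (PresentedGroup R)
  tfae_have 2 → 1 := Pool.Agent.H318.BR.wp_of_simple R
  tfae_finish

end Pool.Agent.Results.MP_24fec0_al.BooneHigman
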