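import Pool.Agent.H318.WP.Core

/-!
# MP_24fec0_al (helper318): characterisations of the solvability of the word problem

The library settles the question (`S00971`: finitely presented groups with solvable word problem
embed in finitely presented oligomorphic groups) and the equivalence of the three kinds of actions
(`TypeAOligomorphic`). Here: the converse implications, all finitely generated groups, and simple
normal subgroups.
-/

set_option autoImplicit false

namespace Pool.Agent.Results.MP_24fec0_al.WordProblemCriterion

/-- `H` embeds in a finitely presented group which acts faithfully on an infinite set `S`, with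
finitely many orbits on `S × S` and with finitely generated point stabilizers. -/
def EmbedsTypeA (H : Type) [Group H] : Prop :=
  ∃ (m : ℕ) (rels : Finset (FreeGroup (Fin m)))
    (φ : H →* PresentedGroup (rels : Set (FreeGroup (Fin m))))
    (S : Type) (_ : Infinite S)
    (ρ : PresentedGroup (rels : Set (FreeGroup (Fin m))) →* Equiv.Perm S),
    Function.Injective φ ∧ Function.Injective ρ ∧
    (Set.range (fun x : S × S =>
      {y : S × S | ∃ h : PresentedGroup (rels : Set (FreeGroup (Fin m))),
        y = (ρ h x.1, ρ h x.2)})).Finite ∧
    ∀ s : S, ((MulAction.stabilizer (Equiv.Perm S) s).comap ρ).FG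

/-- `H` embeds in a finitely presented group which acts faithfully on `ℕ`, with finitely many orbits
on `k`-tuples for every `k` and with finitely generated pointwise stabilizers of all finite sets
(the conclusion of the question). -/
def EmbedsOligomorphic (H : Type) [Group H] : Prop :=
  ∃ (m : ℕ) (rels : Finset (FreeGroup (Fin m)))
    (φ : H →* PresentedGroup (rels : Set (FreeGroup (Fin m))))
    (ρ : PresentedGroup (rels : Set (FreeGroup (Fin m))) →* Equiv.Perm ℕ),
    Function.Injective φ ∧ Function.Injective ρ ∧
    (∀ k : ℕ, (Set.range (fun x : Fin k → ℕ =>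
      {y : Fin k → ℕ | ∃ h : PresentedGroup (rels : Set (FreeGroup (Fin m))),
        y = fun i => ρ h (x i)})).Finite) ∧
    ∀ F : Finset ℕ, ((⨅ a ∈ F, MulAction.stabilizer (Equiv.Perm ℕ) a).comap ρ).FG

/-- `H` embeds in a finitely presented group which acts faithfully on `ℕ`, contains every finitary
permutation of `ℕ`, is highly transitive, and has finitely generated pointwise stabilizers of all
finite sets. -/
def EmbedsHighlyTransitive (H : Type) [Group H] : Prop :=
  ∃ (m : ℕ) (rels : Finset (FreeGroup (Fin m)))
    (φ : H →* PresentedGroup (rels : Set (FreeGroup (Fin m))))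
    (ρ : PresentedGroup (rels : Set (FreeGroup (Fin m))) →* Equiv.Perm ℕ),
    Function.Injective φ ∧ Function.Injective ρ ∧
    (∀ f : Equiv.Perm ℕ, {a : ℕ | f a ≠ a}.Finite → ∃ h, ρ h = f) ∧
    (∀ (k : ℕ) (x y : Fin k → ℕ), Function.Injective x → Function.Injective y →
      ∃ h, ∀ i, ρ h (x i) = y i) ∧
    ∀ F : Finset ℕ, ((⨅ a ∈ F, MulAction.stabilizer (Equiv.Perm ℕ) a).comap ρ).FG

/-- `H` embeds in a simple normal subgroup of a finitely presented group. -/
def EmbedsSimpleNormal (H : Type) [Group H] : Prop :=
  ∃ (m : ℕ) (rels : Finset (FreeGroup (Fin m)))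
    (φ : H →* PresentedGroup (rels : Set (FreeGroup (Fin m))))
    (N : Subgroup (PresentedGroup (rels : Set (FreeGroup (Fin m))))),
    N.Normal ∧ IsSimpleGroup N ∧ Function.Injective φ ∧ ∀ h, φ h ∈ N

/-- `H` embeds in a simple normal subgroup `N` of a finitely presented group which acts faithfully
on an infinite set, with finitely generated point stabilizers, where already `N` is transitive on
the pairs of different points. -/
def EmbedsStrongly (H : Type) [Group H] : Prop :=
  ∃ (m : ℕ) (rels : Finset (FreeGroup (Fin m)))
    (φ : H →* PresentedGroup (rels : Set (FreeGroup (Fin m))))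
    (N : Subgroup (PresentedGroup (rels : Set (FreeGroup (Fin m)))))
    (X : Type) (_ : Infinite X)
    (ρ : PresentedGroup (rels : Set (FreeGroup (Fin m))) →* Equiv.Perm X),
    (N.Normal ∧ IsSimpleGroup N ∧ Function.Injective φ ∧ ∀ h, φ h ∈ N) ∧
    Function.Injective ρ ∧
    (∀ x y x' y' : X, x ≠ y → x' ≠ y' → ∃ g ∈ N, ρ g x = x' ∧ ρ g y = y') ∧
    ∀ s : X, ((MulAction.stabilizer (Equiv.Perm X) s).comap ρ).FG

/-- Let `H` be the group with finitely many generators and an arbitrary set `R` of relators. The
word problem of `H` is solvable if and only if `H` embeds in a finitely presented oligomorphic group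
with finitely generated stabilizers of finite sets, and equivalently if it embeds in one of the
other four ways. -/
theorem result {n : ℕ} (R : Set (FreeGroup (Fin n))) : List.TFAE [
    ComputablePred (fun w : List (Fin n × Bool) =>
      PresentedGroup.mk R (FreeGroup.mk w) = 1),
    EmbedsOligomorphic (PresentedGroup R),
    EmbedsTypeA (PresentedGroup R),
    EmbedsHighlyTransitive (PresentedGroup R),
    EmbedsSimpleNormal (PresentedGroup R),
    EmbedsStrongly (PresentedGroup R)] := by
  have h := Pool.Agent.Results.MP_24fec0_al.TypeAOligomorphic.result (PresentedGroup R)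
  tfae_have 3 ↔ 2 := h.out 0 1
  tfae_have 3 ↔ 4 := h.out 0 2
  tfae_have 1 → 6 := Pool.Agent.H318.WP.strongly n R
  tfae_have 6 → 5 := Pool.Agent.H318.WP.EmbedsStrongly.simpleNormal
  tfae_have 6 → 3 := Pool.Agent.H318.WP.EmbedsStrongly.typeA
  tfae_have 3 → 1 := Pool.Agent.H318.WP.wp_of_typeA R
  tfae_have 5 → 1 := Pool.Agent.H318.WP.wp_of_simpleNormal R
  tfae_finish

end Pool.Agent.Results.MP_24fec0_al.WordProblemCriterion
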